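import Mathlib

/-!
# Entropy of sums modulo powers of two

`red K w j r` is the mass of the `a < 2 ^ K` with `a % 2 ^ j = r`, `HH K w j` the entropy of
`a % 2 ^ j`, `cv K w v` the law of `(a + b) % 2 ^ K`.
-/

set_option autoImplicit false

open Finset Real

namespace Helper36.AD

/-- the mass of the `a < 2 ^ K` with `a % 2 ^ j = r` -/
noncomputable def red (K : ℕ) (w : ℕ → ℝ) (j r : ℕ) : ℝ :=
  ∑ a ∈ range (2 ^ K), if a % 2 ^ j = r then w a else 0

/-- the entropy of `a % 2 ^ j` -/
noncomputable def HH (K : ℕ) (w : ℕ → ℝ) (j : ℕ) : ℝ :=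
  ∑ r ∈ range (2 ^ j), negMulLog (red K w j r)

/-- the law of `(a + b) % 2 ^ K` -/
noncomputable def cv (K : ℕ) (w v : ℕ → ℝ) (z : ℕ) : ℝ :=
  ∑ a ∈ range (2 ^ K), ∑ b ∈ range (2 ^ K), if (a + b) % 2 ^ K = z then w a * v b else 0

/-- entropy of a split -/
noncomputable def gg (x y : ℝ) : ℝ := negMulLog x + negMulLog y - negMulLog (x + y)

theorem gg_comm (x y : ℝ) : gg x y = gg y x := by
  unfold gg
  rw [add_comm x y]
  ring

theorem gg_zero : gg 0 0 = 0 := by
  unfold gg
  simp

theorem gg_eq {x y : ℝ} (hx : 0 ≤ x) (hy : 0 ≤ y) (h : 0 < x + y) :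
    gg x y = (x + y) * binEntropy (y / (x + y)) := by
  have h1 : 1 - y / (x + y) = x / (x + y) := by
    field_simp
    ring
  rw [binEntropy_eq_negMulLog_add_negMulLog_one_sub, h1]
  have key : ∀ z : ℝ, 0 ≤ z → (x + y) * negMulLog (z / (x + y)) =
      negMulLog z + z * Real.log (x + y) := by
    intro z hz
    rcases hz.eq_or_lt with rfl | hz
    · simp
    · unfold negMulLog
      rw [Real.log_div hz.ne' h.ne']
      field_simp
      ring
  rw [mul_add, key y hy, key x hx]
  unfold gg negMulLog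
  ring

theorem gg_nonneg {x y : ℝ} (hx : 0 ≤ x) (hy : 0 ≤ y) : 0 ≤ gg x y := by
  rcases (add_nonneg hx hy).eq_or_lt with h | h
  · have hx0 : x = 0 := by linarith
    have hy0 : y = 0 := by linarith
    rw [hx0, hy0, gg_zero]
  · rw [gg_eq hx hy h]
    refine mul_nonneg h.le (binEntropy_nonneg (by positivity) ?_)
    rw [div_le_one h]
    linarith

/-- superadditivity -/
theorem gg_add {x y x' y' : ℝ} (hx : 0 ≤ x) (hy : 0 ≤ y) (hx' : 0 ≤ x') (hy' : 0 ≤ y') :
    gg x y + gg x' y' ≤ gg (x + x') (y + y') := by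
  rcases (add_nonneg hx hy).eq_or_lt with h | h
  · have hx0 : x = 0 := by linarith
    have hy0 : y = 0 := by linarith
    rw [hx0, hy0, gg_zero]
    simp
  rcases (add_nonneg hx' hy').eq_or_lt with h' | h'
  · have hx0 : x' = 0 := by linarith
    have hy0 : y' = 0 := by linarith
    rw [hx0, hy0, gg_zero]
    simp
  have hs : 0 < (x + x') + (y + y') := by linarith
  rw [gg_eq hx hy h, gg_eq hx' hy' h', gg_eq (by linarith) (by linarith) hs]
  have hc := Real.strictConcave_binEntropy.concaveOn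
  have h1 : y / (x + y) ∈ Set.Icc (0 : ℝ) 1 := ⟨by positivity, by
    rw [div_le_one h]
    linarith⟩
  have h2 : y' / (x' + y') ∈ Set.Icc (0 : ℝ) 1 := ⟨by positivity, by
    rw [div_le_one h']
    linarith⟩
  have ha0 : 0 ≤ (x + y) / ((x + x') + (y + y')) := by positivity
  have hb0 : 0 ≤ (x' + y') / ((x + x') + (y + y')) := by positivity
  have hab : (x + y) / ((x + x') + (y + y')) + (x' + y') / ((x + x') + (y + y')) = 1 := by
    field_simp
    ring
  have h3 := hc.2 h1 h2 ha0 hb0 hab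
  simp only [smul_eq_mul] at h3
  have e : (x + y) / ((x + x') + (y + y')) * (y / (x + y)) +
      (x' + y') / ((x + x') + (y + y')) * (y' / (x' + y')) = (y + y') / ((x + x') + (y + y')) := by
    field_simp
  rw [e] at h3
  have h4 := mul_le_mul_of_nonneg_left h3 hs.le
  refine le_trans (le_of_eq ?_) h4
  field_simp

theorem gg_sum {ι : Type*} (s : Finset ι) (x y : ι → ℝ) (hx : ∀ i ∈ s, 0 ≤ x i)
    (hy : ∀ i ∈ s, 0 ≤ y i) : ∑ i ∈ s, gg (x i) (y i) ≤ gg (∑ i ∈ s, x i) (∑ i ∈ s, y i) := by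
  classical
  induction s using Finset.induction_on with
  | empty => simp [gg_zero]
  | insert i s hi ih =>
    rw [Finset.sum_insert hi, Finset.sum_insert hi, Finset.sum_insert hi]
    refine le_trans (add_le_add le_rfl (ih (fun j hj => hx j (Finset.mem_insert_of_mem hj))
      fun j hj => hy j (Finset.mem_insert_of_mem hj))) ?_
    exact gg_add (hx i (Finset.mem_insert_self i s)) (hy i (Finset.mem_insert_self i s))
      (Finset.sum_nonneg fun j hj => hx j (Finset.mem_insert_of_mem hj))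
      (Finset.sum_nonneg fun j hj => hy j (Finset.mem_insert_of_mem hj))

/-- the pointwise inequality in homogeneous form -/
theorem gg_mul {e C : ℝ} (hpt : ∀ p q : ℝ, 0 ≤ p → p ≤ 1 → 0 ≤ q → q ≤ 1 →
      (1 - e) * (binEntropy p + binEntropy q) - C * (binEntropy p * binEntropy q) ≤
        binEntropy (p * (1 - q) + q * (1 - p)))
    {x y x' y' : ℝ} (hx : 0 ≤ x) (hy : 0 ≤ y) (hx' : 0 ≤ x') (hy' : 0 ≤ y') :
    (1 - e) * ((x' + y') * gg x y + (x + y) * gg x' y') - C * (gg x y * gg x' y') ≤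
      gg (x * x' + y * y') (x * y' + y * x') := by
  rcases (add_nonneg hx hy).eq_or_lt with h | h
  · have hx0 : x = 0 := by linarith
    have hy0 : y = 0 := by linarith
    rw [hx0, hy0]
    simp [gg_zero]
  rcases (add_nonneg hx' hy').eq_or_lt with h' | h'
  · have hx0 : x' = 0 := by linarith
    have hy0 : y' = 0 := by linarith
    rw [hx0, hy0]
    simp [gg_zero]
  have hp := hpt (y / (x + y)) (y' / (x' + y')) (by positivity)
    (by rw [div_le_one h]; linarith) (by positivity) (by rw [div_le_one h']; linarith)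
  have hs : 0 < (x * x' + y * y') + (x * y' + y * x') := by
    have : (x * x' + y * y') + (x * y' + y * x') = (x + y) * (x' + y') := by ring
    rw [this]
    positivity
  rw [gg_eq hx hy h, gg_eq hx' hy' h', gg_eq (by positivity) (by positivity) hs]
  have e1 : (x * x' + y * y') + (x * y' + y * x') = (x + y) * (x' + y') := by ring
  have e2 : (x * y' + y * x') / ((x * x' + y * y') + (x * y' + y * x')) =
      y / (x + y) * (1 - y' / (x' + y')) + y' / (x' + y') * (1 - y / (x + y)) := by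
    rw [e1]
    field_simp
    ring
  rw [e2, e1]
  have h4 := mul_le_mul_of_nonneg_left hp (mul_pos h h').le
  refine le_trans (le_of_eq ?_) h4
  ring

theorem red_nonneg {K : ℕ} {w : ℕ → ℝ} (hw : ∀ a, 0 ≤ w a) (j r : ℕ) : 0 ≤ red K w j r :=
  Finset.sum_nonneg fun a _ => by
    split_ifs
    · exact hw a
    · exact le_rfl

/-- the two halves -/
theorem mod_iff (a j r : ℕ) (hr : r < 2 ^ j) :
    a % 2 ^ j = r ↔ (a % 2 ^ (j + 1) = r ∨ a % 2 ^ (j + 1) = r + 2 ^ j) := by
  have h1 : a % 2 ^ (j + 1) % 2 ^ j = a % 2 ^ j := Nat.mod_mod_of_dvd a (by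
    rw [pow_succ]
    exact dvd_mul_right _ _)
  have h2 : a % 2 ^ (j + 1) < 2 ^ (j + 1) := Nat.mod_lt _ (by positivity)
  have h3 : 2 ^ (j + 1) = 2 ^ j + 2 ^ j := by ring
  constructor
  · intro h
    rcases Nat.lt_or_ge (a % 2 ^ (j + 1)) (2 ^ j) with h4 | h4
    · left
      rw [Nat.mod_eq_of_lt h4] at h1
      omega
    · right
      rw [Nat.mod_eq_sub_mod h4, Nat.mod_eq_of_lt (by omega)] at h1
      omega
  · rintro (h | h)
    · rw [h, Nat.mod_eq_of_lt hr] at h1
      omega
    · rw [h, Nat.add_mod_right, Nat.mod_eq_of_lt hr] at h1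
      omega

theorem red_split {K : ℕ} (w : ℕ → ℝ) (j r : ℕ) (hr : r < 2 ^ j) :
    red K w j r = red K w (j + 1) r + red K w (j + 1) (r + 2 ^ j) := by
  unfold red
  rw [← Finset.sum_add_distrib]
  refine Finset.sum_congr rfl fun a _ => ?_
  have h := mod_iff a j r hr
  have hp : 0 < 2 ^ j := by positivity
  by_cases h1 : a % 2 ^ (j + 1) = r
  · rw [if_pos (h.2 (Or.inl h1)), if_pos h1, if_neg (by omega), add_zero]
  · by_cases h2 : a % 2 ^ (j + 1) = r + 2 ^ j
    · rw [if_pos (h.2 (Or.inr h2)), if_neg h1, if_pos h2, zero_add]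
    · rw [if_neg (fun h3 => (h.1 h3).elim h1 h2), if_neg h1, if_neg h2, add_zero]

theorem red_top (K : ℕ) (w : ℕ → ℝ) (r : ℕ) (hr : r < 2 ^ K) : red K w K r = w r := by
  unfold red
  rw [Finset.sum_eq_single r]
  · rw [if_pos (Nat.mod_eq_of_lt hr)]
  · intro a ha hne
    rw [if_neg]
    rw [Nat.mod_eq_of_lt (Finset.mem_range.1 ha)]
    exact hne
  · intro h
    exact absurd (Finset.mem_range.2 hr) h

/-- sums over the residues modulo `2 ^ (j + 1)` -/
theorem sum_two {M : Type*} [AddCommMonoid M] (j : ℕ) (f : ℕ → M) :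
    ∑ r ∈ range (2 ^ (j + 1)), f r = ∑ r ∈ range (2 ^ j), (f r + f (r + 2 ^ j)) := by
  rw [show 2 ^ (j + 1) = 2 ^ j + 2 ^ j by ring, Finset.sum_range_add, Finset.sum_add_distrib]
  congr 1
  exact Finset.sum_congr rfl fun r _ => by rw [add_comm]

theorem sum_red {K : ℕ} (w : ℕ → ℝ) (j : ℕ) :
    ∑ r ∈ range (2 ^ j), red K w j r = ∑ a ∈ range (2 ^ K), w a := by
  unfold red
  rw [Finset.sum_comm]
  refine Finset.sum_congr rfl fun a _ => ?_
  rw [Finset.sum_ite_eq]
  rw [if_pos (Finset.mem_range.2 (Nat.mod_lt _ (by positivity)))]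

/-- the entropy differences -/
theorem HH_succ_sub {K : ℕ} (w : ℕ → ℝ) (j : ℕ) :
    HH K w (j + 1) - HH K w j =
      ∑ r ∈ range (2 ^ j), gg (red K w (j + 1) r) (red K w (j + 1) (r + 2 ^ j)) := by
  unfold HH
  rw [sum_two, ← Finset.sum_sub_distrib]
  refine Finset.sum_congr rfl fun r hr => ?_
  unfold gg
  rw [red_split w j r (Finset.mem_range.1 hr)]

theorem HH_le_succ {K : ℕ} {w : ℕ → ℝ} (hw : ∀ a, 0 ≤ w a) (j : ℕ) :
    HH K w j ≤ HH K w (j + 1) := by
  have h := HH_succ_sub (K := K) w j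
  have h2 : 0 ≤ ∑ r ∈ range (2 ^ j), gg (red K w (j + 1) r) (red K w (j + 1) (r + 2 ^ j)) :=
    Finset.sum_nonneg fun r _ => gg_nonneg (red_nonneg hw _ _) (red_nonneg hw _ _)
  linarith

theorem HH_zero {K : ℕ} {w : ℕ → ℝ} (h1 : ∑ a ∈ range (2 ^ K), w a = 1) : HH K w 0 = 0 := by
  have h := sum_red (K := K) w 0
  rw [h1] at h
  unfold HH
  simp only [pow_zero, Finset.sum_range_one] at h ⊢
  rw [h]
  simp

theorem HH_top (K : ℕ) (w : ℕ → ℝ) : HH K w K = ∑ a ∈ range (2 ^ K), negMulLog (w a) := by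
  unfold HH
  exact Finset.sum_congr rfl fun r hr => by rw [red_top K w r (Finset.mem_range.1 hr)]

/-- the law of the sum modulo `2 ^ j` -/
theorem red_cv {K j : ℕ} (hj : j ≤ K) (w v : ℕ → ℝ) (z : ℕ) :
    red K (cv K w v) j z = ∑ r ∈ range (2 ^ j), ∑ s ∈ range (2 ^ j),
      if (r + s) % 2 ^ j = z then red K w j r * red K v j s else 0 := by
  have hd : 2 ^ j ∣ 2 ^ K := pow_dvd_pow 2 hj
  have e1 : red K (cv K w v) j z = ∑ a ∈ range (2 ^ K), ∑ b ∈ range (2 ^ K),
      if (a + b) % 2 ^ j = z then w a * v b else 0 := by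
    unfold red cv
    have : ∀ c ∈ range (2 ^ K), (if c % 2 ^ j = z then ∑ a ∈ range (2 ^ K),
        ∑ b ∈ range (2 ^ K), (if (a + b) % 2 ^ K = c then w a * v b else 0) else 0) =
        ∑ a ∈ range (2 ^ K), ∑ b ∈ range (2 ^ K),
          if (a + b) % 2 ^ K = c then (if (a + b) % 2 ^ j = z then w a * v b else 0) else 0 := by
      intro c _
      by_cases h : c % 2 ^ j = z
      · rw [if_pos h]
        refine Finset.sum_congr rfl fun a _ => Finset.sum_congr rfl fun b _ => ?_
        by_cases h2 : (a + b) % 2 ^ K = c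
        · have h3 : (a + b) % 2 ^ j = z := by
            rw [← h, ← h2, Nat.mod_mod_of_dvd _ hd]
          rw [if_pos h2, if_pos h2, if_pos h3]
        · rw [if_neg h2, if_neg h2]
      · rw [if_neg h]
        symm
        refine Finset.sum_eq_zero fun a _ => Finset.sum_eq_zero fun b _ => ?_
        by_cases h2 : (a + b) % 2 ^ K = c
        · have h3 : (a + b) % 2 ^ j ≠ z := by
            intro h4
            apply h
            rw [← h4, ← h2, Nat.mod_mod_of_dvd _ hd]
          rw [if_pos h2, if_neg h3]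
        · rw [if_neg h2]
    rw [Finset.sum_congr rfl this, Finset.sum_comm]
    refine Finset.sum_congr rfl fun a _ => ?_
    rw [Finset.sum_comm]
    refine Finset.sum_congr rfl fun b _ => ?_
    rw [Finset.sum_ite_eq, if_pos (Finset.mem_range.2 (Nat.mod_lt _ (by positivity)))]
  have e2 : ∀ r ∈ range (2 ^ j), ∀ s ∈ range (2 ^ j),
      (if (r + s) % 2 ^ j = z then red K w j r * red K v j s else 0) =
        ∑ a ∈ range (2 ^ K), ∑ b ∈ range (2 ^ K), if a % 2 ^ j = r then
          (if b % 2 ^ j = s then (if (a + b) % 2 ^ j = z then w a * v b else 0) else 0) else 0 := by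
    intro r _ s _
    unfold red
    by_cases h : (r + s) % 2 ^ j = z
    · rw [if_pos h, Finset.sum_mul_sum]
      refine Finset.sum_congr rfl fun a _ => Finset.sum_congr rfl fun b _ => ?_
      by_cases h1 : a % 2 ^ j = r
      · by_cases h2 : b % 2 ^ j = s
        · have h3 : (a + b) % 2 ^ j = z := by
            rw [Nat.add_mod, h1, h2, h]
          rw [if_pos h1, if_pos h2, if_pos h1, if_pos h2, if_pos h3]
        · rw [if_neg h2, if_neg h2, mul_zero]
          simp
      · rw [if_neg h1, if_neg h1, zero_mul]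
    · rw [if_neg h]
      symm
      refine Finset.sum_eq_zero fun a _ => Finset.sum_eq_zero fun b _ => ?_
      by_cases h1 : a % 2 ^ j = r
      · by_cases h2 : b % 2 ^ j = s
        · have h3 : (a + b) % 2 ^ j ≠ z := by
            intro h4
            apply h
            rw [← h4, Nat.add_mod a b, h1, h2]
          rw [if_pos h1, if_pos h2, if_neg h3]
        · rw [if_pos h1, if_neg h2]
      · rw [if_neg h1]
  rw [e1, Finset.sum_congr rfl fun r hr => Finset.sum_congr rfl fun s hs => e2 r hr s hs]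
  symm
  calc ∑ r ∈ range (2 ^ j), ∑ s ∈ range (2 ^ j), ∑ a ∈ range (2 ^ K), ∑ b ∈ range (2 ^ K),
        (if a % 2 ^ j = r then
          (if b % 2 ^ j = s then (if (a + b) % 2 ^ j = z then w a * v b else 0) else 0) else 0)
      = ∑ r ∈ range (2 ^ j), ∑ a ∈ range (2 ^ K), ∑ b ∈ range (2 ^ K),
        (if a % 2 ^ j = r then (if (a + b) % 2 ^ j = z then w a * v b else 0) else 0) := by
        refine Finset.sum_congr rfl fun r _ => ?_
        rw [Finset.sum_comm]
        refine Finset.sum_congr rfl fun a _ => ?_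
        rw [Finset.sum_comm]
        refine Finset.sum_congr rfl fun b _ => ?_
        by_cases h1 : a % 2 ^ j = r
        · simp only [if_pos h1]
          rw [Finset.sum_ite_eq, if_pos (Finset.mem_range.2 (Nat.mod_lt _ (by positivity)))]
        · simp only [if_neg h1]
          simp
    _ = ∑ a ∈ range (2 ^ K), ∑ b ∈ range (2 ^ K),
        (if (a + b) % 2 ^ j = z then w a * v b else 0) := by
        rw [Finset.sum_comm]
        refine Finset.sum_congr rfl fun a _ => ?_
        rw [Finset.sum_comm]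
        refine Finset.sum_congr rfl fun b _ => ?_
        rw [Finset.sum_ite_eq, if_pos (Finset.mem_range.2 (Nat.mod_lt _ (by positivity)))]

theorem cv_nonneg {K : ℕ} {w v : ℕ → ℝ} (hw : ∀ a, 0 ≤ w a) (hv : ∀ a, 0 ≤ v a) (z : ℕ) :
    0 ≤ cv K w v z :=
  Finset.sum_nonneg fun a _ => Finset.sum_nonneg fun b _ => by
    split_ifs
    · exact mul_nonneg (hw a) (hv b)
    · exact le_rfl

theorem sum_cv {K : ℕ} (w v : ℕ → ℝ) : ∑ z ∈ range (2 ^ K), cv K w v z =
    (∑ a ∈ range (2 ^ K), w a) * ∑ b ∈ range (2 ^ K), v b := by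
  unfold cv
  rw [Finset.sum_comm, Finset.sum_mul_sum]
  refine Finset.sum_congr rfl fun a _ => ?_
  rw [Finset.sum_comm]
  refine Finset.sum_congr rfl fun b _ => ?_
  rw [Finset.sum_ite_eq, if_pos (Finset.mem_range.2 (Nat.mod_lt _ (by positivity)))]

/-- the masses of the two halves of the sum -/
theorem red_cv_split {K j : ℕ} (hj : j < K) (w v : ℕ → ℝ) (z : ℕ) (hz : z < 2 ^ j) (t : ℕ)
    (ht : t < 2) :
    red K (cv K w v) (j + 1) (z + t * 2 ^ j) = ∑ r ∈ range (2 ^ j), ∑ s ∈ range (2 ^ j),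
      if (r + s) % 2 ^ j = z then
        (if (r + s < 2 ^ j ↔ t = 0) then
          red K w (j + 1) r * red K v (j + 1) s +
            red K w (j + 1) (r + 2 ^ j) * red K v (j + 1) (s + 2 ^ j)
        else red K w (j + 1) r * red K v (j + 1) (s + 2 ^ j) +
            red K w (j + 1) (r + 2 ^ j) * red K v (j + 1) s) else 0 := by
  rw [red_cv (by omega), sum_two]
  refine Finset.sum_congr rfl fun r hr => ?_
  rw [sum_two, sum_two, ← Finset.sum_add_distrib]
  refine Finset.sum_congr rfl fun s hs => ?_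
  rw [Finset.mem_range] at hr hs
  have h3 : 2 ^ (j + 1) = 2 ^ j + 2 ^ j := by ring
  have hp : 0 < 2 ^ j := by positivity
  rw [h3]
  set N := 2 ^ j with hN
  have m00 : (r + s) % (N + N) = r + s := Nat.mod_eq_of_lt (by omega)
  have m11 : (r + N + (s + N)) % (N + N) = r + s := by
    rw [show r + N + (s + N) = (r + s) + (N + N) by ring, Nat.add_mod_right]
    exact Nat.mod_eq_of_lt (by omega)
  have m01 : (r + (s + N)) % (N + N) = (r + N + s) % (N + N) := by
    congr 1
    ring
  rw [m00, m11, m01]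
  rcases Nat.lt_or_ge (r + s) N with h | h
  · have e1 : (r + N + s) % (N + N) = r + s + N := by
      rw [Nat.mod_eq_of_lt (by omega)]
      ring
    have e2 : (r + s) % N = r + s := Nat.mod_eq_of_lt h
    rw [e1, e2]
    have ht2 : t = 0 ∨ t = 1 := by omega
    rcases ht2 with rfl | rfl
    · by_cases hz2 : r + s = z
      · rw [if_pos (by omega), if_neg (by omega), if_neg (by omega), if_pos (by omega),
          if_pos hz2, if_pos (by simp [h])]
        ring
      · rw [if_neg (by omega), if_neg (by omega), if_neg (by omega), if_neg (by omega),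
          if_neg hz2]
        ring
    · by_cases hz2 : r + s = z
      · rw [if_neg (by omega), if_pos (by omega), if_pos (by omega), if_neg (by omega),
          if_pos hz2, if_neg (by simp [h])]
        ring
      · rw [if_neg (by omega), if_neg (by omega), if_neg (by omega), if_neg (by omega),
          if_neg hz2]
        ring
  · have e1 : (r + N + s) % (N + N) = r + s - N := by
      rw [Nat.mod_eq_sub_mod (by omega), Nat.mod_eq_of_lt (by omega)]
      omega
    have e2 : (r + s) % N = r + s - N := by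
      rw [Nat.mod_eq_sub_mod h, Nat.mod_eq_of_lt (by omega)]
    rw [e1, e2]
    have ht2 : t = 0 ∨ t = 1 := by omega
    rcases ht2 with rfl | rfl
    · by_cases hz2 : r + s - N = z
      · rw [if_neg (by omega), if_pos (by omega), if_pos (by omega), if_neg (by omega),
          if_pos hz2, if_neg (by simp; omega)]
        ring
      · rw [if_neg (by omega), if_neg (by omega), if_neg (by omega), if_neg (by omega),
          if_neg hz2]
        ring
    · by_cases hz2 : r + s - N = z
      · rw [if_pos (by omega), if_neg (by omega), if_neg (by omega), if_pos (by omega),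
          if_pos hz2, if_pos (by simp; omega)]
        ring
      · rw [if_neg (by omega), if_neg (by omega), if_neg (by omega), if_neg (by omega),
          if_neg hz2]
        ring

/-- one bit of the sum: finer conditioning -/
theorem HH_cv_ge {K j : ℕ} (hj : j < K) {w v : ℕ → ℝ} (hw : ∀ a, 0 ≤ w a) (hv : ∀ a, 0 ≤ v a) :
    ∑ r ∈ range (2 ^ j), ∑ s ∈ range (2 ^ j),
      gg (red K w (j + 1) r * red K v (j + 1) s +
            red K w (j + 1) (r + 2 ^ j) * red K v (j + 1) (s + 2 ^ j))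
        (red K w (j + 1) r * red K v (j + 1) (s + 2 ^ j) +
            red K w (j + 1) (r + 2 ^ j) * red K v (j + 1) s) ≤
      HH K (cv K w v) (j + 1) - HH K (cv K w v) j := by
  rw [HH_succ_sub]
  have hx : ∀ i r, 0 ≤ red K w i r := red_nonneg hw
  have hy : ∀ i r, 0 ≤ red K v i r := red_nonneg hv
  set P : ℕ → ℕ → ℝ := fun r s => red K w (j + 1) r * red K v (j + 1) s +
            red K w (j + 1) (r + 2 ^ j) * red K v (j + 1) (s + 2 ^ j) with hP
  set Q : ℕ → ℕ → ℝ := fun r s => red K w (j + 1) r * red K v (j + 1) (s + 2 ^ j) +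
            red K w (j + 1) (r + 2 ^ j) * red K v (j + 1) s with hQ
  have hP0 : ∀ r s, 0 ≤ P r s := fun r s => add_nonneg (mul_nonneg (hx _ _) (hy _ _))
    (mul_nonneg (hx _ _) (hy _ _))
  have hQ0 : ∀ r s, 0 ≤ Q r s := fun r s => add_nonneg (mul_nonneg (hx _ _) (hy _ _))
    (mul_nonneg (hx _ _) (hy _ _))
  have e1 : ∀ z ∈ range (2 ^ j), ∑ p ∈ range (2 ^ j) ×ˢ range (2 ^ j),
      (if (p.1 + p.2) % 2 ^ j = z then gg (P p.1 p.2) (Q p.1 p.2) else 0) ≤
      gg (red K (cv K w v) (j + 1) z) (red K (cv K w v) (j + 1) (z + 2 ^ j)) := by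
    intro z hz
    rw [Finset.mem_range] at hz
    have h0 := red_cv_split hj w v z hz 0 (by norm_num)
    have h1 := red_cv_split hj w v z hz 1 (by norm_num)
    rw [zero_mul, add_zero, ← Finset.sum_product'] at h0
    rw [one_mul, ← Finset.sum_product'] at h1
    rw [h0, h1]
    refine le_trans (Finset.sum_le_sum fun p _ => ?_) (gg_sum _ _ _ (fun p _ => ?_) fun p _ => ?_)
    · by_cases hz2 : (p.1 + p.2) % 2 ^ j = z
      · simp only [if_pos hz2]
        by_cases h : p.1 + p.2 < 2 ^ j
        · rw [if_pos (by simp [h]), if_neg (by simp [h])]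
        · rw [if_neg (by simp [h]), if_pos (by simp [h]), gg_comm]
      · simp only [if_neg hz2]
        rw [gg_zero]
    · split_ifs
      · exact hP0 _ _
      · exact hQ0 _ _
      · exact le_rfl
    · split_ifs
      · exact hP0 _ _
      · exact hQ0 _ _
      · exact le_rfl
  refine le_trans (le_of_eq ?_) (Finset.sum_le_sum e1)
  have e2 : ∑ z ∈ range (2 ^ j), ∑ p ∈ range (2 ^ j) ×ˢ range (2 ^ j),
      (if (p.1 + p.2) % 2 ^ j = z then gg (P p.1 p.2) (Q p.1 p.2) else 0) =
      ∑ p ∈ range (2 ^ j) ×ˢ range (2 ^ j), gg (P p.1 p.2) (Q p.1 p.2) := by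
    rw [Finset.sum_comm]
    refine Finset.sum_congr rfl fun p _ => ?_
    rw [Finset.sum_ite_eq, if_pos (Finset.mem_range.2 (Nat.mod_lt _ (by positivity)))]
  rw [e2]
  exact (Finset.sum_product' (range (2 ^ j)) (range (2 ^ j)) fun r s => gg (P r s) (Q r s)).symm

/-- **One bit.** -/
theorem step_le {K j : ℕ} (hj : j < K) {w v : ℕ → ℝ} (hw : ∀ a, 0 ≤ w a) (hv : ∀ a, 0 ≤ v a)
    (hw1 : ∑ a ∈ range (2 ^ K), w a = 1) (hv1 : ∑ a ∈ range (2 ^ K), v a = 1) {e C : ℝ}
    (hpt : ∀ p q : ℝ, 0 ≤ p → p ≤ 1 → 0 ≤ q → q ≤ 1 →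
      (1 - e) * (binEntropy p + binEntropy q) - C * (binEntropy p * binEntropy q) ≤
        binEntropy (p * (1 - q) + q * (1 - p))) :
    (1 - e) * ((HH K w (j + 1) - HH K w j) + (HH K v (j + 1) - HH K v j)) -
      C * ((HH K w (j + 1) - HH K w j) * (HH K v (j + 1) - HH K v j)) ≤
      HH K (cv K w v) (j + 1) - HH K (cv K w v) j := by
  have hx : ∀ i r, 0 ≤ red K w i r := red_nonneg hw
  have hy : ∀ i r, 0 ≤ red K v i r := red_nonneg hv
  refine le_trans ?_ (HH_cv_ge hj hw hv)
  refine le_trans ?_ (Finset.sum_le_sum fun r _ => Finset.sum_le_sum fun s _ =>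
    gg_mul hpt (hx (j + 1) r) (hx (j + 1) (r + 2 ^ j)) (hy (j + 1) s) (hy (j + 1) (s + 2 ^ j)))
  rw [HH_succ_sub, HH_succ_sub]
  set a : ℕ → ℝ := fun r => gg (red K w (j + 1) r) (red K w (j + 1) (r + 2 ^ j)) with ha
  set b : ℕ → ℝ := fun s => gg (red K v (j + 1) s) (red K v (j + 1) (s + 2 ^ j)) with hb
  have s1 : ∑ r ∈ range (2 ^ j), (red K w (j + 1) r + red K w (j + 1) (r + 2 ^ j)) = 1 := by
    rw [← hw1, ← sum_red w j]
    exact Finset.sum_congr rfl fun r hr => (red_split w j r (Finset.mem_range.1 hr)).symm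
  have s2 : ∑ r ∈ range (2 ^ j), (red K v (j + 1) r + red K v (j + 1) (r + 2 ^ j)) = 1 := by
    rw [← hv1, ← sum_red v j]
    exact Finset.sum_congr rfl fun r hr => (red_split v j r (Finset.mem_range.1 hr)).symm
  refine le_of_eq ?_
  symm
  calc ∑ r ∈ range (2 ^ j), ∑ s ∈ range (2 ^ j),
        ((1 - e) * ((red K v (j + 1) s + red K v (j + 1) (s + 2 ^ j)) * a r +
          (red K w (j + 1) r + red K w (j + 1) (r + 2 ^ j)) * b s) - C * (a r * b s))
      = (1 - e) * ((∑ r ∈ range (2 ^ j), a r) *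
          (∑ s ∈ range (2 ^ j), (red K v (j + 1) s + red K v (j + 1) (s + 2 ^ j))) +
          (∑ r ∈ range (2 ^ j), (red K w (j + 1) r + red K w (j + 1) (r + 2 ^ j))) *
            ∑ s ∈ range (2 ^ j), b s) -
        C * ((∑ r ∈ range (2 ^ j), a r) * ∑ s ∈ range (2 ^ j), b s) := by
        rw [Finset.sum_mul_sum, Finset.sum_mul_sum, Finset.sum_mul_sum]
        simp only [← Finset.sum_add_distrib, Finset.mul_sum, ← Finset.sum_sub_distrib]
        refine Finset.sum_congr rfl fun r _ => Finset.sum_congr rfl fun s _ => ?_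
        ring
    _ = _ := by
        rw [s1, s2]
        ring

end Helper36.AD
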